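import Pool.Agent.H.MP_d27c5e_an.A

namespace Pool.Agent.Results.MP_b4b6e5_an.No

open MeasureTheory Finset Pool.Agent.Lib.helper10.Walsh

/-- the Cesaro numbers -/
noncomputable def A (a : ℝ) (n : ℕ) : ℝ := (∏ i ∈ range n, (a + (i + 1))) / n.factorial

/-- the Cesaro means of order a -/
noncomputable def ces (a : ℝ) (n : ℕ) (f : ℕ → G → ℝ) (x : G) : ℝ :=
  (A a n)⁻¹ * ∑ k ∈ Icc 1 n, A (a - 1) (n - k) * S f k x

theorem A_succ (a : ℝ) (n : ℕ) : A a (n + 1) = A a n * (1 + a / (n + 1)) := by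
  rw [A, A, prod_range_succ, Nat.factorial_succ]
  push_cast
  field_simp
  ring

theorem A_pos {a : ℝ} (h : -1 < a) (n : ℕ) : 0 < A a n :=
  div_pos (prod_pos fun i _ => by linarith [i.cast_nonneg (α := ℝ)]) (by positivity)

theorem bern {b : ℝ} (b0 : 0 ≤ b) (b1 : b ≤ 1) (n : ℕ) :
    (n : ℝ) ^ b ≤ (1 - b / (n + 1)) * (n + 1) ^ b := by
  have n0 : (0 : ℝ) < n + 1 := by positivity
  have h := rpow_one_add_le_one_add_mul_self (s := -(1 / (n + 1 : ℝ)))
    (neg_le_neg ((div_le_one n0).2 (by simp))) b0 b1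
  rw [show 1 + -(1 / (n + 1 : ℝ)) = n / (n + 1) by field_simp; ring,
    Real.div_rpow n.cast_nonneg n0.le, div_le_iff₀ (by positivity)] at h
  exact h.trans_eq (by ring)

theorem result (a : ℝ) (a0 : 0 < a) (a1 : a < 1) (K : NNReal) : ∃ (f : ℕ → G → ℝ) (n : ℕ),
    Martingale f F mu ∧ nH (1 / (1 + a)) f < ⊤ ∧
      K * nH (1 / (1 + a)) f < nL (1 / (1 + a)) (ces a (2 ^ n) f) := by
  have h0 := A_pos (a := a - 1) (by linarith)
  have b0 : 0 < 1 - a := by linarith
  refine H.MP_d27c5e_an.main (θ := 1 / (1 + (1 - a) / 2)) (c := a) (C := 2) a0 a1 h0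
    (antitone_nat_of_succ_le fun n => ?_) (fun n l h => ?_) ((div_lt_one (by linarith)).2
      (by linarith)) a0 (fun n h => ?_) (fun n _ => A_pos (by linarith) n) (fun n h => ?_) K
  · rw [A_succ]
    exact mul_le_of_le_one_right (h0 n).le
      (add_le_of_nonpos_right (div_nonpos_of_nonpos_of_nonneg (by linarith) (by positivity)))
  · have h1 : ∀ m : ℕ, A (a - 1) (m + l) * (1 + (1 - a) * (m / (m + l + 1))) ≤ A (a - 1) l :=
      fun m => by
      induction m with
      | zero => simp
      | succ m ih =>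
        rw [add_right_comm, A_succ, mul_assoc]
        refine le_trans (mul_le_mul_of_nonneg_left ?_ (h0 _).le) ih
        have : (0 : ℝ) ≤ l := l.cast_nonneg
        have : (0 : ℝ) ≤ m := m.cast_nonneg
        have h2 : ((m + 1 : ℕ) : ℝ) / ((m + 1 : ℕ) + l + 1) ≤ m / (m + l + 1) + 1 / (m + l + 1) := by
          push_cast
          rw [← add_div]
          gcongr
          linarith
        have h3 : (0 : ℝ) ≤ ((m + 1 : ℕ) : ℝ) / ((m + 1 : ℕ) + l + 1) := by positivity
        have h4 : (0 : ℝ) ≤ 1 / (m + l + 1) := by positivity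
        rw [div_eq_mul_one_div (a - 1), Nat.cast_add m l]
        nlinarith [mul_nonneg (mul_nonneg b0.le b0.le) (mul_nonneg h3 h4)]
    have h2 : (l + 1 : ℝ) ≤ n := by exact_mod_cast h
    have h3 : (1 / 2 : ℝ) ≤ n / (n + l + 1) := by
      rw [le_div_iff₀ (by positivity)]
      linarith
    rw [one_div, inv_mul_eq_div, le_div_iff₀ (by linarith)]
    exact le_trans (mul_le_mul_of_nonneg_left (by nlinarith) (h0 _).le) (h1 n)
  · induction n, h using Nat.le_induction with
    | base => simp [A]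
    | succ n h ih =>
      have n0 : (0 : ℝ) < n := by exact_mod_cast h
      have h1 := bern b0.le (by linarith) n
      rw [← neg_sub 1 a, Real.rpow_neg (by positivity), ← div_eq_mul_inv,
        div_le_iff₀ (by positivity)] at ih ⊢
      rw [A_succ, mul_assoc, neg_div, ← sub_eq_add_neg, Nat.cast_succ]
      exact ih.trans (mul_le_mul_of_nonneg_left h1 (A_pos (by linarith) n).le)
  · induction n, h using Nat.le_induction with
    | base => simp [A]; linarith
    | succ n h ih =>
      have h1 : 0 ≤ a / (n + 1) := by positivity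
      have h2 : 0 ≤ (n + 1 : ℝ) ^ a := by positivity
      rw [A_succ, Nat.cast_succ]
      grw [ih, bern a0.le a1.le n]
      nlinarith [mul_nonneg h2 (mul_nonneg h1 h1)]

end Pool.Agent.Results.MP_b4b6e5_an.No
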